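import Pool.Agent.H21.BS.TB

/-!
# The largest Fourier coefficients on short intervals (row SPX)
-/

set_option autoImplicit false

open Finset Pool.Agent.H6.N4D Pool.Agent.H21.BS

namespace Pool.Agent.H35.BS

/-- a sum of squares as a sum over pairs -/
theorem sum_sq_le (X : Finset ℕ) (m s : ℕ) (hs : 1 ≤ s) (z : ℕ → ℕ → ℂ) :
    ∑ x ∈ X, ‖(∑ y ∈ range m, z x y) / s‖ ^ 2 ≤
      1 / (s : ℝ) ^ 2 * ∑ u ∈ range m, ∑ v ∈ range m,
        ‖∑ x ∈ X, z x u * starRingEnd ℂ (z x v)‖ := by
  have hs0 : (0 : ℝ) < s := by exact_mod_cast hs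
  have e : ((∑ x ∈ X, ‖(∑ y ∈ range m, z x y) / s‖ ^ 2 : ℝ) : ℂ) =
      1 / (s : ℂ) ^ 2 * ∑ u ∈ range m, ∑ v ∈ range m,
        ∑ x ∈ X, z x u * starRingEnd ℂ (z x v) := by
    push_cast
    have h1 : ∀ x ∈ X, ((‖(∑ y ∈ range m, z x y) / (s : ℂ)‖ : ℂ)) ^ 2 =
        1 / (s : ℂ) ^ 2 * ∑ u ∈ range m, ∑ v ∈ range m, z x u * starRingEnd ℂ (z x v) := by
      intro x _
      rw [← Complex.mul_conj', map_div₀, map_sum, Complex.conj_natCast, ← Finset.sum_mul_sum]
      ring
    rw [Finset.sum_congr rfl h1, ← Finset.mul_sum]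
    congr 1
    rw [Finset.sum_comm]
    apply Finset.sum_congr rfl
    intro u _
    rw [Finset.sum_comm]
  have h2 : 0 ≤ ∑ x ∈ X, ‖(∑ y ∈ range m, z x y) / (s : ℂ)‖ ^ 2 :=
    Finset.sum_nonneg fun x _ => by positivity
  have h3 : ∑ x ∈ X, ‖(∑ y ∈ range m, z x y) / (s : ℂ)‖ ^ 2 =
      ‖((∑ x ∈ X, ‖(∑ y ∈ range m, z x y) / s‖ ^ 2 : ℝ) : ℂ)‖ := by
    rw [Complex.norm_real, Real.norm_of_nonneg h2]
  rw [h3, e, norm_mul]
  have h4 : ‖(1 / (s : ℂ) ^ 2)‖ = 1 / (s : ℝ) ^ 2 := by
    rw [norm_div, norm_one, norm_pow, Complex.norm_natCast]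
  rw [h4]
  apply mul_le_mul_of_nonneg_left _ (by positivity)
  refine (norm_sum_le _ _).trans (Finset.sum_le_sum fun u _ => ?_)
  exact norm_sum_le _ _

theorem count_le (m h : ℕ) (a b : ℝ) (hb : 0 ≤ b) (g : ℕ → ℕ → ℝ)
    (hg : ∀ u v, u < m → v < m → g u v ≤ a + (if v = u then b else 0) +
      (if v = u + h then b else 0) + (if u = v + h then b else 0)) :
    ∑ u ∈ range m, ∑ v ∈ range m, g u v ≤ (m : ℝ) ^ 2 * a + 3 * m * b := by
  have h1 : ∀ u ∈ range m, ∑ v ∈ range m, g u v ≤ m * a + 3 * b := by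
    intro u hu
    rw [Finset.mem_range] at hu
    calc ∑ v ∈ range m, g u v ≤ ∑ v ∈ range m, (a + (if v = u then b else 0) +
          (if v = u + h then b else 0) + (if u = v + h then b else 0)) :=
          Finset.sum_le_sum fun v hv => hg u v hu (Finset.mem_range.1 hv)
      _ = m * a + (∑ v ∈ range m, if v = u then b else 0) +
          (∑ v ∈ range m, if v = u + h then b else 0) +
          ∑ v ∈ range m, if u = v + h then b else 0 := by
          rw [Finset.sum_add_distrib, Finset.sum_add_distrib, Finset.sum_add_distrib,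
            Finset.sum_const, Finset.card_range, nsmul_eq_mul]
      _ ≤ m * a + b + b + b := by
          have e1 : ∀ w : ℕ, (∑ v ∈ range m, if v = w then b else 0) ≤ b := by
            intro w
            rw [Finset.sum_ite_eq']
            split_ifs
            · exact le_rfl
            · exact hb
          have e2 : (∑ v ∈ range m, if u = v + h then b else 0) ≤ b := by
            refine le_trans ?_ (e1 (u - h))
            apply Finset.sum_le_sum
            intro v _
            by_cases h2 : u = v + h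
            · rw [if_pos h2, if_pos (by omega)]
            · rw [if_neg h2]
              split_ifs
              · exact hb
              · exact le_rfl
          have e3 := e1 u
          have e4 := e1 (u + h)
          linarith
      _ = m * a + 3 * b := by ring
  calc ∑ u ∈ range m, ∑ v ∈ range m, g u v ≤ ∑ u ∈ range m, (m * a + 3 * b) :=
        Finset.sum_le_sum h1
    _ = (m : ℝ) ^ 2 * a + 3 * m * b := by
        rw [Finset.sum_const, Finset.card_range, nsmul_eq_mul]
        ring

theorem pf_SPX (hVDC : T_VDC) (hFPT : T_FPT) (hHOL : T_HOL) : T_SPX := by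
  intro W
  obtain ⟨C1, hC1, h1⟩ := hFPT W
  set C2 : ℝ := 2000 * (4 + W) ^ 4 with hC2
  have hC20 : 0 ≤ C2 := by positivity
  refine ⟨4 * C1 + 16 * C2, by positivity, ?_⟩
  intro P κ V s θ hV hs hsP hsN
  have hs0 : (0 : ℝ) < s := by exact_mod_cast hs
  have hs1 : (1 : ℝ) ≤ s := by exact_mod_cast hs
  have hP0 : (0 : ℝ) < P := by exact_mod_cast hV.P1
  have hκ := hV.k0
  have hN0 : (0 : ℝ) ≤ V.N := Nat.cast_nonneg _
  set E : ℝ := C1 * (κ + 1 / P) * V.N with hE
  have hE0 : 0 ≤ E := by positivity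
  set B : ℝ := C2 * V.N with hB
  have hB0 : 0 ≤ B := by positivity
  have hq : ∀ h u v : ℕ, h < s → u < s - h → v < s - h →
      ‖∑ x ∈ range (V.N - s), V.om (V.a + x + u) * starRingEnd ℂ (V.om (V.a + x + (u + h))) *
        starRingEnd ℂ (V.om (V.a + x + v) * starRingEnd ℂ (V.om (V.a + x + (v + h))))‖ ≤ B := by
    intro h u v hh hu hv
    have h2 := hHOL W P κ V s ![u, u + h, v, v + h] hV (by
      intro j
      fin_cases j <;> simp <;> omega) hsN
    refine (norm_sum_le _ _).trans (le_trans (le_of_eq ?_) h2)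
    apply Finset.sum_congr rfl
    intro x _
    rw [Fin.prod_univ_four, map_mul, norm_mul, norm_mul, norm_mul]
    simp only [Matrix.cons_val_zero, Matrix.cons_val_one, Matrix.cons_val, RCLike.norm_conj,
      Complex.conj_conj]
    ring
  have hi : ∀ h u v : ℕ, 1 ≤ h → h < s → u < s - h → v < s - h → v ≠ u → v ≠ u + h →
      u ≠ v + h →
      ‖∑ x ∈ range (V.N - s), V.om (V.a + x + u) * starRingEnd ℂ (V.om (V.a + x + (u + h))) *
        starRingEnd ℂ (V.om (V.a + x + v) * starRingEnd ℂ (V.om (V.a + x + (v + h))))‖ ≤ E := by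
    intro h u v hh0 hh hu hv n1 n2 n3
    have h2 := h1 P κ V s ![u, u + h, v, v + h] hV (by
      intro i j hij
      fin_cases i <;> fin_cases j <;> simp at hij ⊢ <;> omega) (by
      intro j
      fin_cases j <;> simp <;> omega) hsP hsN
    refine le_trans (le_of_eq ?_) h2
    congr 1
    apply Finset.sum_congr rfl
    intro x _
    rw [map_mul, Complex.conj_conj]
    simp only [Matrix.cons_val_zero, Matrix.cons_val_one, Matrix.cons_val]
  have hR : ∀ h < s, ∑ x ∈ range (V.N - s),
      ‖(∑ y ∈ range (s - h), V.om (V.a + x + y) * starRingEnd ℂ (V.om (V.a + x + (y + h)))) /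
        s‖ ^ 2 ≤ (if h = 0 then B else 0) + (E + 3 * B / s) := by
    intro h hh
    refine (sum_sq_le _ _ s hs (fun x y =>
      V.om (V.a + x + y) * starRingEnd ℂ (V.om (V.a + x + (y + h))))).trans ?_
    have hms : ((s - h : ℕ) : ℝ) ≤ s := by exact_mod_cast Nat.sub_le s h
    have hm0 : (0 : ℝ) ≤ ((s - h : ℕ) : ℝ) := Nat.cast_nonneg _
    by_cases h0 : h = 0
    · rw [if_pos h0]
      have h3 : ∑ u ∈ range (s - h), ∑ v ∈ range (s - h),
          ‖∑ x ∈ range (V.N - s),
            V.om (V.a + x + u) * starRingEnd ℂ (V.om (V.a + x + (u + h))) *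
            starRingEnd ℂ (V.om (V.a + x + v) *
              starRingEnd ℂ (V.om (V.a + x + (v + h))))‖ ≤ (s : ℝ) ^ 2 * B := by
        calc _ ≤ ∑ u ∈ range (s - h), ∑ v ∈ range (s - h), B := by
              apply Finset.sum_le_sum
              intro u hu
              apply Finset.sum_le_sum
              intro v hv
              exact hq h u v hh (Finset.mem_range.1 hu) (Finset.mem_range.1 hv)
          _ = ((s - h : ℕ) : ℝ) * (((s - h : ℕ) : ℝ) * B) := by
              rw [Finset.sum_const, Finset.sum_const, Finset.card_range, nsmul_eq_mul,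
                nsmul_eq_mul]
          _ ≤ (s : ℝ) * ((s : ℝ) * B) := by gcongr
          _ = (s : ℝ) ^ 2 * B := by ring
      have h4 : 1 / (s : ℝ) ^ 2 * ((s : ℝ) ^ 2 * B) = B := by
        field_simp
      have h5 : 0 ≤ E + 3 * B / s := by positivity
      calc _ ≤ 1 / (s : ℝ) ^ 2 * ((s : ℝ) ^ 2 * B) :=
            mul_le_mul_of_nonneg_left h3 (by positivity)
        _ = B := h4
        _ ≤ _ := by linarith
    · rw [if_neg h0, zero_add]
      have h3 : ∑ u ∈ range (s - h), ∑ v ∈ range (s - h),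
          ‖∑ x ∈ range (V.N - s),
            V.om (V.a + x + u) * starRingEnd ℂ (V.om (V.a + x + (u + h))) *
            starRingEnd ℂ (V.om (V.a + x + v) *
              starRingEnd ℂ (V.om (V.a + x + (v + h))))‖ ≤
          ((s - h : ℕ) : ℝ) ^ 2 * E + 3 * ((s - h : ℕ) : ℝ) * B := by
        apply count_le (s - h) h E B hB0
        intro u v hu hv
        by_cases n1 : v = u
        · rw [if_pos n1]
          have := hq h u v hh hu hv
          have e1 : 0 ≤ (if v = u + h then B else 0) := by split_ifs <;> linarith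
          have e2 : 0 ≤ (if u = v + h then B else 0) := by split_ifs <;> linarith
          linarith
        · by_cases n2 : v = u + h
          · rw [if_neg n1, if_pos n2]
            have := hq h u v hh hu hv
            have e2 : 0 ≤ (if u = v + h then B else 0) := by split_ifs <;> linarith
            linarith
          · by_cases n3 : u = v + h
            · rw [if_neg n1, if_neg n2, if_pos n3]
              have := hq h u v hh hu hv
              linarith
            · rw [if_neg n1, if_neg n2, if_neg n3]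
              have := hi h u v (Nat.one_le_iff_ne_zero.2 h0) hh hu hv n1 n2 n3
              linarith
      have h4 : ((s - h : ℕ) : ℝ) ^ 2 * E + 3 * ((s - h : ℕ) : ℝ) * B ≤
          (s : ℝ) ^ 2 * E + 3 * (s : ℝ) * B := by gcongr
      calc _ ≤ 1 / (s : ℝ) ^ 2 * ((s : ℝ) ^ 2 * E + 3 * (s : ℝ) * B) :=
            mul_le_mul_of_nonneg_left (h3.trans h4) (by positivity)
        _ = E + 3 * B / s := by
            field_simp
  calc ∑ x ∈ range (V.N - s),
        ‖(∑ y ∈ range s, V.om (V.a + x + y) * ee (-(θ x * y))) / s‖ ^ 4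
      ≤ ∑ x ∈ range (V.N - s), (4 / (s : ℝ) * ∑ h ∈ range s,
        ‖(∑ y ∈ range (s - h),
          V.om (V.a + x + y) * starRingEnd ℂ (V.om (V.a + x + (y + h)))) / s‖ ^ 2) := by
        apply Finset.sum_le_sum
        intro x _
        exact hVDC s (fun y => V.om (V.a + x + y)) (θ x) hs
    _ = 4 / (s : ℝ) * ∑ h ∈ range s, ∑ x ∈ range (V.N - s),
        ‖(∑ y ∈ range (s - h),
          V.om (V.a + x + y) * starRingEnd ℂ (V.om (V.a + x + (y + h)))) / s‖ ^ 2 := by
        rw [← Finset.mul_sum, Finset.sum_comm]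
    _ ≤ 4 / (s : ℝ) * ∑ h ∈ range s, ((if h = 0 then B else 0) + (E + 3 * B / s)) := by
        apply mul_le_mul_of_nonneg_left _ (by positivity)
        apply Finset.sum_le_sum
        intro h hh
        exact hR h (Finset.mem_range.1 hh)
    _ = 4 / (s : ℝ) * (B + s * (E + 3 * B / s)) := by
        rw [Finset.sum_add_distrib, Finset.sum_const, Finset.card_range, nsmul_eq_mul,
          Finset.sum_ite_eq' (range s) 0, if_pos (Finset.mem_range.2 hs)]
    _ = 4 * E + 16 * (B / s) := by
        field_simp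
        ring
    _ ≤ (4 * C1 + 16 * C2) * (1 / s + κ + 1 / P) * V.N := by
        rw [hE, hB]
        have h6 : 0 ≤ C1 * (1 / s) * V.N := by positivity
        have h7 : 0 ≤ C2 * (κ + 1 / P) * V.N := by positivity
        have h8 : (4 * C1 + 16 * C2) * (1 / s + κ + 1 / P) * V.N =
            4 * (C1 * (κ + 1 / P) * V.N) + 16 * (C2 * V.N / s) + 4 * (C1 * (1 / s) * V.N) +
              16 * (C2 * (κ + 1 / P) * V.N) := by ring
        rw [h8]
        linarith

end Pool.Agent.H35.BS
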